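import Pool.Agent.U180.NG.Stm

/-!
# Project NG, package LOW: tails of a sum split into blocks
-/

set_option autoImplicit false

open MeasureTheory ProbabilityTheory Filter Topology

namespace Pool.Agent.U122.NG

open Pool.Agent.U180.NG

theorem greedy {ι : Type} [DecidableEq ι] (v : ι → ℝ) (hv1 : ∀ i, v i ≤ 1 / 4)
    (w : ℝ) (hw : 0 < w) :
    ∀ S : Finset ι, w ≤ ∑ i ∈ S, v i → ∃ T ⊆ S, w ≤ ∑ i ∈ T, v i ∧ ∑ i ∈ T, v i ≤ w + 1 / 4 := by
  intro S
  induction S using Finset.induction_on with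
  | empty =>
    intro h
    rw [Finset.sum_empty] at h
    linarith
  | insert a S ha ih =>
    intro h
    by_cases hS : w ≤ ∑ i ∈ S, v i
    · obtain ⟨T, h1, h2, h3⟩ := ih hS
      exact ⟨T, h1.trans (Finset.subset_insert _ _), h2, h3⟩
    · refine ⟨insert a S, Finset.Subset.refl _, h, ?_⟩
      rw [Finset.sum_insert ha]
      have := hv1 a
      push Not at hS
      linarith

section
variable {Ω ι : Type} [MeasurableSpace Ω] (P : Measure Ω) (X : ι → Ω → ℝ)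

/-- the centred sum -/
noncomputable def W (S : Finset ι) (ω : Ω) : ℝ := ∑ i ∈ S, (X i ω - ∫ ω, X i ω ∂P)

theorem indep_W [DecidableEq ι] (hm : ∀ i, Measurable (X i)) (hi : iIndepFun X P)
    {S T : Finset ι} (hST : Disjoint S T) : IndepFun (W P X S) (W P X T) P := by
  have h1 := hi.indepFun_finset S T hST hm
  have h2 : ∀ U : Finset ι, Measurable (fun x : U → ℝ => ∑ i : U, (x i - ∫ ω, X i ω ∂P)) := by
    intro U
    fun_prop
  have h3 := h1.comp (h2 S) (h2 T)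
  have h4 : ∀ U : Finset ι, W P X U =
      (fun x : U → ℝ => ∑ i : U, (x i - ∫ ω, X i ω ∂P)) ∘ (fun a (i : U) => X i a) := by
    intro U
    funext ω
    simp only [W, Function.comp]
    exact (Finset.sum_coe_sort U (fun i => X i ω - ∫ ω, X i ω ∂P)).symm
  rw [h4 S, h4 T]
  exact h3

theorem W_meas (hm : ∀ i, Measurable (X i)) (S : Finset ι) : Measurable (W P X S) := by
  unfold W
  fun_prop

theorem W_add [DecidableEq ι] {S T : Finset ι} (h : T ⊆ S) (ω : Ω) :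
    W P X S ω = W P X T ω + W P X (S \ T) ω := by
  unfold W
  rw [add_comm]
  exact (Finset.sum_sdiff h).symm

theorem claim (hLA : S_LOWA) [DecidableEq ι] [IsProbabilityMeasure P]
    (hm : ∀ i, Measurable (X i)) (hi : iIndepFun X P) (h01 : ∀ i ω, X i ω = 0 ∨ X i ω = 1)
    (w : ℝ) (hw : 1 ≤ w) : ∀ L : ℕ, ∀ S : Finset ι,
    ((L + 1 : ℕ) : ℝ) * (w + 1 / 4) ≤ ∑ i ∈ S, (∫ ω, X i ω ∂P) * (1 - ∫ ω, X i ω ∂P) →
    (1 / 64 : ℝ) ^ (L + 1) ≤ P.real {ω | ((L + 1 : ℕ) : ℝ) * Real.sqrt w / 8 ≤ W P X S ω} ∧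
    (1 / 64 : ℝ) ^ (L + 1) ≤
      P.real {ω | W P X S ω ≤ -(((L + 1 : ℕ) : ℝ) * Real.sqrt w / 8)} := by
  have base : ∀ T : Finset ι, w ≤ ∑ i ∈ T, (∫ ω, X i ω ∂P) * (1 - ∫ ω, X i ω ∂P) →
      (1 / 64 : ℝ) ≤ P.real {ω | Real.sqrt w / 8 ≤ W P X T ω} ∧
      (1 / 64 : ℝ) ≤ P.real {ω | W P X T ω ≤ -(Real.sqrt w / 8)} := by
    intro T hT
    obtain ⟨h1, h2⟩ := hLA Ω ι P inferInstance X T hm hi h01 (hw.trans hT)
    have h3 := Real.sqrt_le_sqrt hT
    constructor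
    · refine h1.trans (measureReal_mono (fun ω hω => ?_))
      have : Real.sqrt (∑ i ∈ T, (∫ ω, X i ω ∂P) * (1 - ∫ ω, X i ω ∂P)) / 8 ≤ W P X T ω := hω
      show Real.sqrt w / 8 ≤ W P X T ω
      linarith
    · refine h2.trans (measureReal_mono (fun ω hω => ?_))
      have : W P X T ω ≤ -(Real.sqrt (∑ i ∈ T, (∫ ω, X i ω ∂P) *
        (1 - ∫ ω, X i ω ∂P)) / 8) := hω
      show W P X T ω ≤ -(Real.sqrt w / 8)
      linarith
  intro L
  induction L with
  | zero =>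
    intro S hS
    have h1 := base S (by push_cast at hS; linarith)
    simpa using h1
  | succ L ih =>
    intro S hS
    have hL0 : (0 : ℝ) ≤ L := Nat.cast_nonneg L
    have hL1 : ((L + 1 : ℕ) : ℝ) * (w + 1 / 4) + (w + 1 / 4) =
        ((L + 1 + 1 : ℕ) : ℝ) * (w + 1 / 4) := by
      push_cast
      ring
    obtain ⟨T, hTS, hT1, hT2⟩ := greedy
      (fun i => (∫ ω, X i ω ∂P) * (1 - ∫ ω, X i ω ∂P))
      (fun i => by nlinarith [sq_nonneg ((∫ ω, X i ω ∂P) - 1 / 2)]) w (by linarith) S (by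
        have : 0 ≤ ((L + 1 : ℕ) : ℝ) * (w + 1 / 4) := by positivity
        linarith)
    have hsd := Finset.sum_sdiff (f := fun i => (∫ ω, X i ω ∂P) * (1 - ∫ ω, X i ω ∂P)) hTS
    obtain ⟨i1, i2⟩ := ih (S \ T) (by linarith)
    obtain ⟨b1, b2⟩ := base T hT1
    have hind := indep_W P X hm hi (Finset.disjoint_sdiff (s := T) (t := S))
    constructor
    · have h1 := hind.measure_inter_preimage_eq_mul (Set.Ici (Real.sqrt w / 8))
        (Set.Ici (((L + 1 : ℕ) : ℝ) * Real.sqrt w / 8)) measurableSet_Ici measurableSet_Ici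
      have h2 : P.real (W P X T ⁻¹' Set.Ici (Real.sqrt w / 8) ∩
          W P X (S \ T) ⁻¹' Set.Ici (((L + 1 : ℕ) : ℝ) * Real.sqrt w / 8)) =
          P.real (W P X T ⁻¹' Set.Ici (Real.sqrt w / 8)) *
            P.real (W P X (S \ T) ⁻¹' Set.Ici (((L + 1 : ℕ) : ℝ) * Real.sqrt w / 8)) := by
        simp only [Measure.real]
        rw [h1, ENNReal.toReal_mul]
      have h3 : (1 / 64 : ℝ) ^ (L + 1 + 1) ≤ P.real (W P X T ⁻¹' Set.Ici (Real.sqrt w / 8) ∩
          W P X (S \ T) ⁻¹' Set.Ici (((L + 1 : ℕ) : ℝ) * Real.sqrt w / 8)) := by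
        rw [h2, pow_succ, mul_comm]
        exact mul_le_mul b1 i1 (by positivity) measureReal_nonneg
      refine h3.trans (measureReal_mono (fun ω hω => ?_))
      obtain ⟨e1, e2⟩ := hω
      have e1' : Real.sqrt w / 8 ≤ W P X T ω := e1
      have e2' : ((L + 1 : ℕ) : ℝ) * Real.sqrt w / 8 ≤ W P X (S \ T) ω := e2
      show ((L + 1 + 1 : ℕ) : ℝ) * Real.sqrt w / 8 ≤ W P X S ω
      rw [W_add P X hTS]
      push_cast at e2' ⊢
      linarith
    · have h1 := hind.measure_inter_preimage_eq_mul (Set.Iic (-(Real.sqrt w / 8)))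
        (Set.Iic (-(((L + 1 : ℕ) : ℝ) * Real.sqrt w / 8))) measurableSet_Iic measurableSet_Iic
      have h2 : P.real (W P X T ⁻¹' Set.Iic (-(Real.sqrt w / 8)) ∩
          W P X (S \ T) ⁻¹' Set.Iic (-(((L + 1 : ℕ) : ℝ) * Real.sqrt w / 8))) =
          P.real (W P X T ⁻¹' Set.Iic (-(Real.sqrt w / 8))) *
            P.real (W P X (S \ T) ⁻¹' Set.Iic (-(((L + 1 : ℕ) : ℝ) * Real.sqrt w / 8))) := by
        simp only [Measure.real]
        rw [h1, ENNReal.toReal_mul]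
      have h3 : (1 / 64 : ℝ) ^ (L + 1 + 1) ≤ P.real (W P X T ⁻¹' Set.Iic (-(Real.sqrt w / 8)) ∩
          W P X (S \ T) ⁻¹' Set.Iic (-(((L + 1 : ℕ) : ℝ) * Real.sqrt w / 8))) := by
        rw [h2, pow_succ, mul_comm]
        exact mul_le_mul b2 i2 (by positivity) measureReal_nonneg
      refine h3.trans (measureReal_mono (fun ω hω => ?_))
      obtain ⟨e1, e2⟩ := hω
      have e1' : W P X T ω ≤ -(Real.sqrt w / 8) := e1
      have e2' : W P X (S \ T) ω ≤ -(((L + 1 : ℕ) : ℝ) * Real.sqrt w / 8) := e2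
      show W P X S ω ≤ -(((L + 1 + 1 : ℕ) : ℝ) * Real.sqrt w / 8)
      rw [W_add P X hTS]
      push_cast at e2' ⊢
      linarith

end

/-- package LOW -/
theorem t_LOW (h : S_LOWA) : S_LOW := by
  classical
  intro Ω ι _ P hP X S L hm hi h01 hL hV
  set V : ℝ := ∑ i ∈ S, (∫ ω, X i ω ∂P) * (1 - ∫ ω, X i ω ∂P) with hVd
  have hLr : (1 : ℝ) ≤ L := by exact_mod_cast hL
  have hL0 : (0 : ℝ) < L := by linarith
  have hw1 : 1 ≤ V / (2 * L) := by
    rw [le_div_iff₀ (by linarith)]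
    linarith
  have hLw : (L : ℝ) * (V / (2 * L)) = V / 2 := by
    field_simp
  obtain ⟨M, rfl⟩ : ∃ M, L = M + 1 := ⟨L - 1, by omega⟩
  obtain ⟨c1, c2⟩ := claim P X h hm hi h01 (V / (2 * ((M + 1 : ℕ) : ℝ))) hw1 M S (by
    rw [← hVd, mul_add, hLw]
    linarith)
  have hV0 : 0 ≤ V := by linarith
  have key : Real.sqrt (((M + 1 : ℕ) : ℝ) * V) / 12 ≤
      ((M + 1 : ℕ) : ℝ) * Real.sqrt (V / (2 * ((M + 1 : ℕ) : ℝ))) / 8 := by
    rw [← pow_le_pow_iff_left₀ (by positivity) (by positivity) two_ne_zero, div_pow, div_pow,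
      mul_pow, Real.sq_sqrt (by positivity), Real.sq_sqrt (by positivity)]
    have e1 : ((M + 1 : ℕ) : ℝ) ^ 2 * (V / (2 * ((M + 1 : ℕ) : ℝ))) =
        ((M + 1 : ℕ) : ℝ) * V / 2 := by
      rw [pow_two, mul_assoc, hLw]
      ring
    rw [e1]
    have e2 : 0 ≤ ((M + 1 : ℕ) : ℝ) * V := by positivity
    linarith
  constructor
  · refine c1.trans (measureReal_mono (fun ω hω => ?_))
    have hω' : ((M + 1 : ℕ) : ℝ) * Real.sqrt (V / (2 * ((M + 1 : ℕ) : ℝ))) / 8 ≤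
      W P X S ω := hω
    exact key.trans hω'
  · refine c2.trans (measureReal_mono (fun ω hω => ?_))
    have hω' : W P X S ω ≤
      -(((M + 1 : ℕ) : ℝ) * Real.sqrt (V / (2 * ((M + 1 : ℕ) : ℝ))) / 8) := hω
    show W P X S ω ≤ -(Real.sqrt (((M + 1 : ℕ) : ℝ) * V) / 12)
    linarith

end Pool.Agent.U122.NG
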